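import Pool.Agent.Y854.GM.Mean2
import Pool.Agent.Y19.QT.Fin2

/-! Ranks and orders of vanishing for the quadratic twists by the terms of a sparse sequence. -/

set_option autoImplicit false

namespace Pool.Agent.Y854.TW

open Finset Filter Topology
open Pool.Agent.Y19.QT
open Pool.Agent.Y854.PS (wt)

open Classical in
/-- the `L`-function of the twist by `d` -/
noncomputable def LF (a b d : ℤ) : ℂ → ℂ :=
  if h : ∃ F : ℂ → ℂ, IsLFun (a * d ^ 2) (b * d ^ 3) F then h.choose else 0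

lemma LF_eq {a b d : ℤ} {F : ℂ → ℂ} (hF : IsLFun (a * d ^ 2) (b * d ^ 3) F) : LF a b d = F := by
  have h : ∃ F : ℂ → ℂ, IsLFun (a * d ^ 2) (b * d ^ 3) F := ⟨F, hF⟩
  unfold LF
  rw [dif_pos h]
  exact isLFun_unique h.choose_spec hF

lemma LF_spec {a b : ℤ} (h : TwistLaw a b) (d : ℤ) (hd : Squarefree d) :
    IsLFun (a * d ^ 2) (b * d ^ 3) (LF a b d) := by
  obtain ⟨F, hF, _⟩ := (h.1 d hd).2
  rw [LF_eq hF]
  exact hF

/-- rank plus order of vanishing for the twist by `d` -/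
noncomputable def tt (a b d : ℤ) : ℕ := rkord (a * d ^ 2) (b * d ^ 3) (LF a b d)

open Classical in
/-- the functions on the squarefree numbers -/
noncomputable def gf (a b s : ℤ) (φ : ℕ → ℝ) (m : ℕ) : ℝ := if Squarefree m then φ (tt a b (s * m)) else 0

lemma gf_nonneg (a b s : ℤ) {φ : ℕ → ℝ} (hφ : ∀ x, 0 ≤ φ x) (m : ℕ) : 0 ≤ gf a b s φ m := by
  unfold gf; split_ifs
  · exact hφ _
  · exact le_rfl

/-- sums over one sign are at most sums over both signs -/
lemma sum_side {s : ℤ} (hs : s = 1 ∨ s = -1) (a b : ℤ) {φ : ℕ → ℝ} (hφ : ∀ x, 0 ≤ φ x) (X : ℕ) :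
    ∑ m ∈ Ioc 0 X, gf a b s φ m ≤ ∑ d ∈ sqf X, φ (tt a b d) := by
  classical
  unfold gf
  rw [← Finset.sum_filter]
  have hinj : ∀ x ∈ (Ioc 0 X).filter (fun m => Squarefree m), ∀ y ∈ (Ioc 0 X).filter (fun m => Squarefree m),
      s * (x : ℤ) = s * (y : ℤ) → x = y := by
    intro x _ y _ hxy
    rcases hs with rfl | rfl <;> omega
  rw [← Finset.sum_image (f := fun d : ℤ => φ (tt a b d)) hinj]
  apply Finset.sum_le_sum_of_subset_of_nonneg
  · intro d hd
    rw [mem_image] at hd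
    obtain ⟨m, hm, rfl⟩ := hd
    rw [mem_filter, mem_Ioc] at hm
    rw [mem_sqf]
    constructor
    · have h1 : |s * (m : ℤ)| = (m : ℤ) := by
        rcases hs with rfl | rfl <;> simp
      rw [h1]
      exact_mod_cast hm.1.2
    · have h1 : (s * (m : ℤ)).natAbs = m := by
        rcases hs with rfl | rfl <;> simp
      rw [← Int.squarefree_natAbs, h1]
      exact hm.2
  · intro _ _ _
    exact hφ _

/-- powers of the logarithm -/
lemma log_pow_le (A : ℕ) {X : ℝ} (hX : 1 ≤ X) : Real.log X ^ A ≤ A.factorial * X := by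
  have h1 := Real.pow_div_factorial_le_exp (Real.log X) (Real.log_nonneg hX) A
  rw [div_le_iff₀ (by positivity), Real.exp_log (by linarith)] at h1
  linarith

/-- the bound for a single twist -/
lemma single {s : ℤ} (hs : s = 1 ∨ s = -1) (a b : ℤ) {C c : ℝ} {A : ℕ} (hC : 0 < C)
    (h : ∀ X : ℕ, 3 ≤ X → ∑ d ∈ sqf X, Real.exp (c * tt a b d) ≤ C * X * Real.log X ^ A) (m : ℕ) (hm : 1 ≤ m)
    (hsq : Squarefree m) : Real.exp (c * tt a b (s * m)) ≤ (9 * C * A.factorial) * (m : ℝ) ^ 2 := by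
  have hm1 : (1 : ℝ) ≤ m := by exact_mod_cast hm
  have h1 := h (max m 3) (le_max_right _ _)
  have h2 : s * (m : ℤ) ∈ sqf (max m 3) := by
    rw [mem_sqf]
    constructor
    · have h1 : |s * (m : ℤ)| = (m : ℤ) := by
        rcases hs with rfl | rfl <;> simp
      rw [h1]
      exact_mod_cast le_max_left m 3
    · have h1 : (s * (m : ℤ)).natAbs = m := by
        rcases hs with rfl | rfl <;> simp
      rw [← Int.squarefree_natAbs, h1]
      exact hsq
  have h3 : Real.exp (c * tt a b (s * m)) ≤ ∑ d ∈ sqf (max m 3), Real.exp (c * tt a b d) :=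
    Finset.single_le_sum (f := fun d : ℤ => Real.exp (c * tt a b d)) (fun d _ => (Real.exp_pos _).le) h2
  have h4 : ((max m 3 : ℕ) : ℝ) ≤ 3 * m := by
    have : max m 3 ≤ 3 * m := by omega
    exact_mod_cast this
  have h5 : (1 : ℝ) ≤ ((max m 3 : ℕ) : ℝ) := by
    have : 1 ≤ max m 3 := by omega
    exact_mod_cast this
  have h6 := log_pow_le A h5
  have h7 : C * ((max m 3 : ℕ) : ℝ) * Real.log ((max m 3 : ℕ) : ℝ) ^ A ≤ C * (3 * m) * (A.factorial * (3 * m)) := by
    apply mul_le_mul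
    · exact mul_le_mul_of_nonneg_left h4 hC.le
    · exact h6.trans (mul_le_mul_of_nonneg_left h4 (by positivity))
    · exact pow_nonneg (Real.log_nonneg h5) _
    · positivity
  calc Real.exp (c * tt a b (s * m)) ≤ C * (3 * m) * (A.factorial * (3 * m)) := h3.trans (h1.trans h7)
    _ = _ := by ring

/-- exponentials with a small rate grow slowly -/
lemma single_small {s : ℤ} (hs : s = 1 ∨ s = -1) (a b : ℤ) {C c κ η : ℝ} {A : ℕ} (hC : 0 < C) (hc : 0 < c)
    (hκ : 0 < κ) (hη : 0 < η) (hη1 : η ≤ c * κ / 2) (hη2 : η ≤ c)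
    (h : ∀ X : ℕ, 3 ≤ X → ∑ d ∈ sqf X, Real.exp (c * tt a b d) ≤ C * X * Real.log X ^ A) (m : ℕ) (hm : 1 ≤ m)
    (hsq : Squarefree m) : Real.exp (η * tt a b (s * m)) ≤ (9 * C * A.factorial + 1) * (m : ℝ) ^ κ := by
  have hm1 : (1 : ℝ) ≤ m := by exact_mod_cast hm
  have h1 := single hs a b hC h m hm hsq
  set K : ℝ := 9 * C * A.factorial + 1 with hK
  have hK1 : 1 ≤ K := by
    have : 0 ≤ 9 * C * (A.factorial : ℝ) := by positivity
    linarith
  have h2 : Real.exp (c * tt a b (s * m)) ≤ K * (m : ℝ) ^ 2 := by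
    refine h1.trans (mul_le_mul_of_nonneg_right (by linarith) (by positivity))
  have h3 : Real.exp (η * tt a b (s * m)) = (Real.exp (c * tt a b (s * m))) ^ (η / c) := by
    rw [← Real.exp_mul]
    congr 1
    field_simp
  have hr0 : 0 ≤ η / c := by positivity
  have hr1 : η / c ≤ 1 := by rw [div_le_one hc]; exact hη2
  have hr2 : 2 * (η / c) ≤ κ := by
    rw [← mul_div_assoc, div_le_iff₀ hc]
    linarith
  rw [h3]
  calc (Real.exp (c * tt a b (s * m))) ^ (η / c) ≤ (K * (m : ℝ) ^ 2) ^ (η / c) :=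
        Real.rpow_le_rpow (Real.exp_pos _).le h2 hr0
    _ = K ^ (η / c) * ((m : ℝ) ^ 2) ^ (η / c) := Real.mul_rpow (by linarith) (by positivity)
    _ ≤ K * (m : ℝ) ^ κ := by
        apply mul_le_mul
        · calc K ^ (η / c) ≤ K ^ (1 : ℝ) := Real.rpow_le_rpow_of_exponent_le hK1 hr1
            _ = K := Real.rpow_one K
        · rw [← Real.rpow_natCast, ← Real.rpow_mul (by linarith)]
          apply Real.rpow_le_rpow_of_exponent_le hm1
          push_cast
          exact hr2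
        · positivity
        · linarith

lemma gf_exp_grow {s : ℤ} (hs : s = 1 ∨ s = -1) (a b : ℤ) {C c κ η : ℝ} {A : ℕ} (hC : 0 < C) (hc : 0 < c)
    (hκ : 0 < κ) (hη : 0 < η) (hη1 : η ≤ c * κ / 2) (hη2 : η ≤ c)
    (h : ∀ X : ℕ, 3 ≤ X → ∑ d ∈ sqf X, Real.exp (c * tt a b d) ≤ C * X * Real.log X ^ A) :
    ∃ K : ℝ, 0 < K ∧ ∀ m : ℕ, 1 ≤ m → |gf a b s (fun x => Real.exp (η * x)) m| ≤ K * (m : ℝ) ^ κ := by
  refine ⟨9 * C * A.factorial + 1, by positivity, fun m hm => ?_⟩
  rw [abs_of_nonneg (gf_nonneg a b s (fun x => (Real.exp_pos _).le) m)]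
  unfold gf
  split_ifs with hsq
  · exact single_small hs a b hC hc hκ hη hη1 hη2 h m hm hsq
  · positivity

/-- small exponential moments give small moments over all sets that are not too small -/
theorem momS (C c : ℝ) (A : ℕ) (hc : 0 < c) (T : ℕ → Finset ℕ) (x : ℕ → ℕ)
    (h : ∀ N : ℕ, 3 ≤ N → ∑ n ∈ T N, Real.exp (c * x n) ≤ C * N * Real.log N ^ A) (k B : ℕ) :
    ∃ C' : ℝ, ∀ (N : ℕ) (S : Finset ℕ), 3 ≤ N → S ⊆ T N → ∑ n ∈ S, (x n : ℝ) ^ k ≤
      C' * (S.card + N / Real.log N ^ B) * (1 + Real.log (Real.log N)) ^ k := by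
  refine ⟨max ((2 * (A + B : ℕ) / c) ^ k) ((k.factorial * (2 / c) ^ k) * C), fun X S hX hS => ?_⟩
  have hl := one_le_log hX
  have hl0 : 0 < Real.log X := by linarith
  have hll : 0 ≤ Real.log (Real.log X) := Real.log_nonneg hl
  have hX0 : (0 : ℝ) ≤ X := Nat.cast_nonneg X
  set L : ℝ := Real.log (Real.log X) with hL
  have hpt : ∀ d ∈ S, (x d : ℝ) ^ k ≤ (2 * (A + B : ℕ) / c * L) ^ k +
      (k.factorial * (2 / c) ^ k) * (Real.exp (c * x d) / Real.log X ^ (A + B)) := by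
    intro d hd
    have hx0 : (0 : ℝ) ≤ x d := Nat.cast_nonneg _
    have hE : (0 : ℝ) < Real.exp (c * x d) / Real.log X ^ (A + B) := by positivity
    by_cases hx : (x d : ℝ) ≤ 2 * (A + B : ℕ) / c * L
    · have h1 := pow_le_pow_left₀ hx0 hx k
      have : 0 ≤ (k.factorial * (2 / c) ^ k) *
        (Real.exp (c * x d) / Real.log X ^ (A + B)) := by positivity
      linarith
    · push Not at hx
      have h1 : (x d : ℝ) ^ k ≤ (k.factorial * (2 / c) ^ k) * Real.exp (c / 2 * x d) := by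
        have h2 := Real.pow_div_factorial_le_exp (c / 2 * x d) (by positivity) k
        rw [div_le_iff₀ (by positivity)] at h2
        have h3 : (x d : ℝ) ^ k = (2 / c) ^ k * (c / 2 * x d) ^ k := by
          rw [← mul_pow]
          congr 1
          field_simp
        rw [h3]
        calc (2 / c) ^ k * (c / 2 * x d) ^ k ≤ (2 / c) ^ k * (Real.exp (c / 2 * x d) * k.factorial) :=
              mul_le_mul_of_nonneg_left h2 (by positivity)
          _ = _ := by ring
      have h2 : Real.exp (c / 2 * x d) ≤ Real.exp (c * x d) / Real.log X ^ (A + B) := by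
        rw [le_div_iff₀ (by positivity)]
        have h3 : Real.log X ^ (A + B) = Real.exp ((A + B : ℕ) * L) := by
          rw [hL, Real.exp_nat_mul, Real.exp_log hl0]
        rw [h3, ← Real.exp_add]
        apply Real.exp_le_exp.2
        have h4 : (A + B : ℕ) * L ≤ c / 2 * x d := by
          have h5 : 2 * (A + B : ℕ) / c * L * (c / 2) ≤ x d * (c / 2) :=
            mul_le_mul_of_nonneg_right hx.le (by positivity)
          have h6 : 2 * (A + B : ℕ) / c * L * (c / 2) = (A + B : ℕ) * L := by field_simp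
          linarith
        linarith
      have h3 := mul_le_mul_of_nonneg_left h2 (show (0 : ℝ) ≤ k.factorial * (2 / c) ^ k by positivity)
      have h4 : (0 : ℝ) ≤ (2 * (A + B : ℕ) / c * L) ^ k := by positivity
      linarith
  refine (Finset.sum_le_sum hpt).trans ?_
  rw [Finset.sum_add_distrib, Finset.sum_const, nsmul_eq_mul, ← Finset.mul_sum, ← Finset.sum_div]
  have h0 : ∑ d ∈ S, Real.exp (c * x d) ≤ C * X * Real.log X ^ A :=
    (Finset.sum_le_sum_of_subset_of_nonneg hS fun _ _ _ => (Real.exp_pos _).le).trans (h X hX)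
  have h1 : (∑ d ∈ S, Real.exp (c * x d)) / Real.log X ^ (A + B) ≤ C * (X / Real.log X ^ B) := by
    rw [div_le_iff₀ (by positivity)]
    refine h0.trans (le_of_eq ?_)
    rw [pow_add]
    field_simp
  have hLk : L ^ k ≤ (1 + L) ^ k := pow_le_pow_left₀ hll (by linarith) k
  have h1k : (1 : ℝ) ≤ (1 + L) ^ k := one_le_pow₀ (by linarith)
  have hXB : 0 ≤ X / Real.log X ^ B := by positivity
  have hC0 : 0 ≤ C * (X / Real.log X ^ B) := by
    refine le_trans ?_ h1
    positivity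
  have h2 : (S.card : ℝ) * (2 * (A + B : ℕ) / c * L) ^ k ≤
      (2 * (A + B : ℕ) / c) ^ k * S.card * (1 + L) ^ k := by
    rw [mul_pow]
    calc (S.card : ℝ) * ((2 * (A + B : ℕ) / c) ^ k * L ^ k) =
          (2 * (A + B : ℕ) / c) ^ k * S.card * L ^ k := by ring
      _ ≤ _ := mul_le_mul_of_nonneg_left hLk (by positivity)
  have h3 : (k.factorial * (2 / c) ^ k) *
      ((∑ d ∈ S, Real.exp (c * x d)) / Real.log X ^ (A + B)) ≤
      (k.factorial * (2 / c) ^ k) * C * (X / Real.log X ^ B) * (1 + L) ^ k := by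
    calc _ ≤ (k.factorial * (2 / c) ^ k) * (C * (X / Real.log X ^ B)) :=
          mul_le_mul_of_nonneg_left h1 (by positivity)
      _ ≤ (k.factorial * (2 / c) ^ k) * (C * (X / Real.log X ^ B)) * (1 + L) ^ k :=
          le_mul_of_one_le_right (by positivity) h1k
      _ = _ := by ring
  have h4 : (2 * (A + B : ℕ) / c) ^ k * S.card * (1 + L) ^ k ≤
      max ((2 * (A + B : ℕ) / c) ^ k) ((k.factorial * (2 / c) ^ k) * C) * S.card * (1 + L) ^ k := by
    gcongr
    exact le_max_left _ _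
  have h5 : (k.factorial * (2 / c) ^ k) * C * (X / Real.log X ^ B) * (1 + L) ^ k ≤
      max ((2 * (A + B : ℕ) / c) ^ k) ((k.factorial * (2 / c) ^ k) * C) *
        (X / Real.log X ^ B) * (1 + L) ^ k := by
    gcongr
    exact le_max_right _ _
  calc _ ≤ _ := add_le_add (h2.trans h4) (h3.trans h5)
    _ = _ := by ring

/-- the logarithm of the last term of the sequence -/
lemma log_last {α c : ℝ} (hα : 0 < α) (hc : 1 < c) : ∃ B : ℝ, 1 ≤ B ∧ ∀ N : ℕ, 3 ≤ N →
    Real.log ((⌊α * (N : ℝ) ^ c⌋₊ : ℝ) + 3) ≤ B * Real.log N := by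
  refine ⟨Real.log (α + 3) + c, ?_, fun N hN => ?_⟩
  · have : 0 ≤ Real.log (α + 3) := Real.log_nonneg (by linarith)
    linarith
  have hN3 : (3 : ℝ) ≤ N := by exact_mod_cast hN
  have hl : 1 ≤ Real.log N := one_le_log hN
  have hNc : (1 : ℝ) ≤ (N : ℝ) ^ c := Real.one_le_rpow (by linarith) (by linarith)
  have h1 : (⌊α * (N : ℝ) ^ c⌋₊ : ℝ) + 3 ≤ (α + 3) * (N : ℝ) ^ c := by
    have := Nat.floor_le (show 0 ≤ α * (N : ℝ) ^ c by positivity)
    nlinarith
  have h2 := Real.log_le_log (by positivity) h1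
  rw [Real.log_mul (by linarith) (by positivity), Real.log_rpow (by linarith)] at h2
  have h3 : 0 ≤ Real.log (α + 3) := Real.log_nonneg (by linarith)
  nlinarith

/-- **Main theorem of this file.** -/
theorem main (c : ℝ) (hc : 1 < c) : ∃ E : Set ℝ, dimH E < 1 ∧ ∀ α : ℝ, 0 < α → α ∉ E →
    ∀ s : ℤ, (s = 1 ∨ s = -1) → ∀ a b : ℤ, TwistLaw a b →
      ∃ (C η : ℝ) (A : ℕ), 0 < η ∧ ∀ N : ℕ, 3 ≤ N →
        ∑ n ∈ Icc 1 N, gf a b s (fun x => Real.exp (η * x)) ⌊α * (n : ℝ) ^ c⌋₊ ≤ C * N * Real.log N ^ A := by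
  classical
  obtain ⟨κ, hκ, hκ1, hmean⟩ := Pool.Agent.Y854.GM.mean2 c hc
  obtain ⟨E, hE, hlaw⟩ := hmean (fun (i : ℤ × ℤ × ℤ × ℕ) (m : ℕ) =>
    gf i.1 i.2.1 i.2.2.1 (fun x => Real.exp ((1 / ((i.2.2.2 : ℝ) + 1)) * x)) m)
  refine ⟨E, hE, fun α hα hαE s hs a b htw => ?_⟩
  obtain ⟨-, ⟨C0, c0, A, hc0, hexp⟩, -⟩ := htw.2 (LF a b) (LF_spec htw)
  have hexp' : ∀ X : ℕ, 3 ≤ X → ∑ d ∈ sqf X, Real.exp (c0 * tt a b d) ≤ (|C0| + 1) * X * Real.log X ^ A := by
    intro X hX
    refine (hexp X hX).trans ?_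
    have h1 : 0 ≤ (X : ℝ) * Real.log X ^ A := by
      have := one_le_log hX
      positivity
    have h2 : C0 ≤ |C0| + 1 := by linarith [le_abs_self C0]
    nlinarith
  set C1 : ℝ := |C0| + 1 with hC1
  have hC1' : 0 < C1 := by positivity
  obtain ⟨B, hB1, hB⟩ := log_last hα hc
  have hX3 : ∀ X : ℕ, (1 : ℝ) ≤ Real.log ((X : ℝ) + 3) := by
    intro X
    have := one_le_log (show 3 ≤ X + 3 by omega)
    push_cast at this
    exact this
  obtain ⟨l, hl⟩ := exists_nat_ge (1 / min (c0 * κ / 2) c0)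
  have hmin : 0 < min (c0 * κ / 2) c0 := lt_min (by positivity) hc0
  set η : ℝ := 1 / ((l : ℝ) + 1) with hη
  have hη0 : 0 < η := by positivity
  have hη1 : η ≤ min (c0 * κ / 2) c0 := by
    rw [hη, div_le_iff₀ (by positivity)]
    rw [div_le_iff₀ hmin] at hl
    nlinarith
  have hgrow := gf_exp_grow hs a b hC1' hc0 hκ hη0 (hη1.trans (min_le_left _ _)) (hη1.trans (min_le_right _ _)) hexp'
  obtain ⟨N0, hN0⟩ := hlaw α hα hαE (a, b, s, l) hgrow
  have hsum : ∀ X : ℕ, ∑ m ∈ Ioc 0 X, gf a b s (fun x => Real.exp (η * x)) m ≤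
      (1 + 3 * C1 * Real.log ((X : ℝ) + 3) ^ A) * X := by
    intro X
    rcases Nat.eq_zero_or_pos X with rfl | hX
    · simp
    have hX1 : (1 : ℝ) ≤ X := by exact_mod_cast hX
    have h1 : ∑ m ∈ Ioc 0 X, gf a b s (fun x => Real.exp (η * x)) m ≤
        ∑ m ∈ Ioc 0 (max X 3), gf a b s (fun x => Real.exp (η * x)) m := by
      apply Finset.sum_le_sum_of_subset_of_nonneg
      · exact Finset.Ioc_subset_Ioc_right (le_max_left _ _)
      · intro _ _ _
        exact gf_nonneg a b s (fun x => (Real.exp_pos _).le) _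
    have h2 := sum_side hs a b (φ := fun x => Real.exp (η * x)) (fun x => (Real.exp_pos _).le) (max X 3)
    have h3 : ∑ d ∈ sqf (max X 3), Real.exp (η * tt a b d) ≤ ∑ d ∈ sqf (max X 3), Real.exp (c0 * tt a b d) := by
      apply Finset.sum_le_sum
      intro d _
      apply Real.exp_le_exp.mpr
      exact mul_le_mul_of_nonneg_right (hη1.trans (min_le_right _ _)) (Nat.cast_nonneg _)
    have h4 := hexp' (max X 3) (le_max_right _ _)
    have h5 : ((max X 3 : ℕ) : ℝ) ≤ 3 * X := by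
      have : max X 3 ≤ 3 * X := by omega
      exact_mod_cast this
    have h6 : Real.log ((max X 3 : ℕ) : ℝ) ≤ Real.log ((X : ℝ) + 3) := by
      apply Real.log_le_log
      · have : 0 < max X 3 := by omega
        exact_mod_cast this
      · have : max X 3 ≤ X + 3 := by omega
        exact_mod_cast this
    have h7 : 0 ≤ Real.log ((max X 3 : ℕ) : ℝ) := by
      have := one_le_log (le_max_right X 3)
      linarith
    have h8 : C1 * ((max X 3 : ℕ) : ℝ) * Real.log ((max X 3 : ℕ) : ℝ) ^ A ≤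
        C1 * (3 * X) * Real.log ((X : ℝ) + 3) ^ A := by
      apply mul_le_mul
      · exact mul_le_mul_of_nonneg_left h5 hC1'.le
      · exact pow_le_pow_left₀ h7 h6 A
      · positivity
      · positivity
    have h9 := h1.trans (h2.trans (h3.trans (h4.trans h8)))
    nlinarith
  have hDm : Monotone (fun X : ℕ => 1 + 3 * C1 * Real.log ((X : ℝ) + 3) ^ A) := by
    intro X Y hXY
    have h1 : Real.log ((X : ℝ) + 3) ≤ Real.log ((Y : ℝ) + 3) := by
      apply Real.log_le_log (by positivity)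
      have : (X : ℝ) ≤ Y := by exact_mod_cast hXY
      linarith
    have h2 := pow_le_pow_left₀ (by linarith [hX3 X]) h1 A
    have h3 := mul_le_mul_of_nonneg_left h2 (show 0 ≤ 3 * C1 by positivity)
    simp only
    linarith
  obtain ⟨K, hK, hfin⟩ := Pool.Agent.Y854.GM.seq_upper_slow hα hc hκ (gf a b s (fun x => Real.exp (η * x)))
    (gf_nonneg a b s (fun x => (Real.exp_pos _).le)) (fun X : ℕ => 1 + 3 * C1 * Real.log ((X : ℝ) + 3) ^ A)
    (fun X => by
      have : 0 ≤ 3 * C1 * Real.log ((X : ℝ) + 3) ^ A := by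
        have := hX3 X
        positivity
      linarith) hDm hsum N0 hN0
  refine ⟨K * ((1 + 3 * C1) * B ^ A), η, A, hη0, fun N hN => ?_⟩
  refine (hfin N).trans ?_
  have hNp : (0 : ℝ) < N := by
    have : 0 < N := by omega
    exact_mod_cast this
  have hlN : 1 ≤ Real.log N := one_le_log hN
  have h1 : 1 + 3 * C1 * Real.log ((⌊α * (N : ℝ) ^ c⌋₊ : ℝ) + 3) ^ A ≤ (1 + 3 * C1) * (B ^ A * Real.log N ^ A) := by
    have h2 := pow_le_pow_left₀ (by linarith [hX3 ⌊α * (N : ℝ) ^ c⌋₊]) (hB N hN) A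
    rw [mul_pow] at h2
    have h3 : (1 : ℝ) ≤ B ^ A * Real.log N ^ A := by
      have := one_le_pow₀ hB1 (n := A)
      have h4 := one_le_pow₀ hlN (n := A)
      nlinarith
    have h5 := mul_le_mul_of_nonneg_left h2 (show 0 ≤ 3 * C1 by positivity)
    nlinarith
  calc K * (1 + 3 * C1 * Real.log ((⌊α * (N : ℝ) ^ c⌋₊ : ℝ) + 3) ^ A) * N
      ≤ K * ((1 + 3 * C1) * (B ^ A * Real.log N ^ A)) * N := by
        apply mul_le_mul_of_nonneg_right _ hNp.le
        exact mul_le_mul_of_nonneg_left h1 hK.le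
    _ = _ := by ring

end Pool.Agent.Y854.TW
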